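import Pool.Agent.Helper54.LA.Short

/-!
# Artin groups are directed colimits of Artin groups of finite rank
-/

set_option autoImplicit false

namespace Pool.Agent.Helper54.LA

open Pool.Agent.Helper29.BA Pool.Agent.Helper13.LT

variable {S : Type} (M : CoxeterMatrix S)

/-- The restriction of a Coxeter matrix. -/
def res (i : Set S) : CoxeterMatrix i where
  M := fun s t => M s t
  isSymm := by
    ext s t
    exact M.symmetric _ _
  diagonal := fun s => M.diagonal _
  off_diagonal := fun s t h => M.off_diagonal _ _ fun e => h (Subtype.ext e)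

theorem res_apply (i : Set S) (s t : i) : res M i s t = M s t := rfl

theorem map_alt {G H : Type} [Group G] [Group H] (f : G →* H) (x y : G) (n : ℕ) :
    f (alt x y n) = alt (f x) (f y) n := by
  induction n generalizing x y with
  | zero => exact map_one f
  | succ n ih => rw [alt, alt, map_mul, ih]

/-- Homomorphisms of Artin groups. -/
def artinLift {G : Type} [Group G] (f : S → G)
    (h : ∀ s t, M s t ≠ 0 → alt (f s) (f t) (M s t) = alt (f t) (f s) (M s t)) :
    ArtinGroup M →* G :=
  PresentedGroup.toGroup (f := f) (by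
    rintro w ⟨s, t, h0, rfl⟩
    rw [map_mul, map_inv, mul_inv_eq_one, map_alt, map_alt, FreeGroup.lift_apply_of,
      FreeGroup.lift_apply_of]
    exact h s t h0)

theorem artinLift_of {G : Type} [Group G] (f : S → G)
    (h : ∀ s t, M s t ≠ 0 → alt (f s) (f t) (M s t) = alt (f t) (f s) (M s t)) (s : S) :
    artinLift M f h (PresentedGroup.of s) = f s := PresentedGroup.toGroup.of _

/-- The inclusions. -/
def incl {i j : Set S} (h : i ⊆ j) : ArtinGroup (res M i) →* ArtinGroup (res M j) :=
  artinLift _ (fun s => PresentedGroup.of ⟨s.1, h s.2⟩) fun s t h0 =>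
    artin_braid (res M j) ⟨s.1, h s.2⟩ ⟨t.1, h t.2⟩ h0

/-- The inclusions. -/
def toAll (i : Set S) : ArtinGroup (res M i) →* ArtinGroup M :=
  artinLift _ (fun s => PresentedGroup.of s.1) fun s t h0 => artin_braid M s.1 t.1 h0

theorem incl_of {i j : Set S} (h : i ⊆ j) (s : i) :
    incl M h (PresentedGroup.of s) = PresentedGroup.of ⟨s.1, h s.2⟩ := artinLift_of _ _ _ _

theorem toAll_of (i : Set S) (s : i) :
    toAll M i (PresentedGroup.of s) = PresentedGroup.of s.1 := artinLift_of _ _ _ _

theorem incl_incl {i j k : Set S} (h : i ⊆ j) (h' : j ⊆ k) (x : ArtinGroup (res M i)) :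
    incl M h' (incl M h x) = incl M (h.trans h') x := by
  have : (incl M h').comp (incl M h) = incl M (h.trans h') := by
    refine PresentedGroup.ext fun s => ?_
    rw [MonoidHom.comp_apply, incl_of, incl_of, incl_of]
  exact congrArg (fun f : ArtinGroup (res M i) →* ArtinGroup (res M k) => f x) this

theorem toAll_incl {i j : Set S} (h : i ⊆ j) (x : ArtinGroup (res M i)) :
    toAll M j (incl M h x) = toAll M i x := by
  have : (toAll M j).comp (incl M h) = toAll M i := by
    refine PresentedGroup.ext fun s => ?_
    rw [MonoidHom.comp_apply, incl_of, toAll_of, toAll_of]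
  exact congrArg (fun f : ArtinGroup (res M i) →* ArtinGroup M => f x) this

open Classical in
/-- The retraction of the free group. -/
noncomputable def ret (j : Set S) : FreeGroup S →* ArtinGroup (res M j) :=
  FreeGroup.lift fun s => if h : s ∈ j then PresentedGroup.of ⟨s, h⟩ else 1

theorem ret_of {j : Set S} {s : S} (h : s ∈ j) :
    ret M j (FreeGroup.of s) = PresentedGroup.of ⟨s, h⟩ := by
  rw [ret, FreeGroup.lift_apply_of, dif_pos h]

theorem exists_finset {w : FreeGroup S} (hw : w ∈ Subgroup.normalClosure (artinRels M)) :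
    ∃ j₀ : Finset S, ∀ j : Finset S, j₀ ≤ j → ret M (j : Set S) w = 1 := by
  classical
  let N : Subgroup (FreeGroup S) :=
    { carrier := {w | ∃ j₀ : Finset S, ∀ j : Finset S, j₀ ≤ j → ret M (j : Set S) w = 1}
      one_mem' := ⟨∅, fun j _ => map_one _⟩
      mul_mem' := by
        rintro a b ⟨j, hj⟩ ⟨k, hk⟩
        refine ⟨j ∪ k, fun l hl => ?_⟩
        rw [map_mul, hj l (Finset.union_subset_left hl), hk l (Finset.union_subset_right hl),
          one_mul]
      inv_mem' := by
        rintro a ⟨j, hj⟩
        exact ⟨j, fun l hl => by rw [map_inv, hj l hl, inv_one]⟩ }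
  have hN : N.Normal := ⟨by
    rintro a ⟨j, hj⟩ g
    exact ⟨j, fun l hl => by rw [map_mul, map_mul, hj l hl, mul_one, map_inv, mul_inv_cancel]⟩⟩
  have h : artinRels M ⊆ N := by
    rintro w ⟨s, t, h0, rfl⟩
    refine ⟨{s, t}, fun j hj => ?_⟩
    have hs : s ∈ (j : Set S) := hj (by simp)
    have ht : t ∈ (j : Set S) := hj (by simp)
    rw [map_mul, map_inv, mul_inv_eq_one, map_alt, map_alt, ret_of M hs, ret_of M ht]
    exact artin_braid (res M (j : Set S)) ⟨s, hs⟩ ⟨t, ht⟩ h0
  exact Subgroup.normalClosure_le_normal h hw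

/-- Reduction to finite rank. -/
theorem of_finite {C : ∀ (G : Type) [Group G], Prop} (hC : ClosedClass C)
    (h : ∀ i : Finset S, C (ArtinGroup (res M (i : Set S)))) : C (ArtinGroup M) := by
  classical
  refine hC.colimit (Finset S) (fun i => ArtinGroup (res M (i : Set S)))
    (fun i j hij => incl M (Finset.coe_subset.2 hij)) ?_ (ArtinGroup M)
    (fun i => toAll M (i : Set S)) ?_ ?_ ?_ h
  · exact fun i j k hij hjk x => incl_incl M _ _ x
  · exact fun i j hij x => toAll_incl M _ x
  · intro x
    have key : ∀ w : FreeGroup S, ∃ (i : Finset S) (y : ArtinGroup (res M (i : Set S))),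
        toAll M (i : Set S) y = PresentedGroup.mk (artinRels M) w := by
      intro w
      induction w using FreeGroup.induction_on with
      | C1 => exact ⟨∅, 1, by rw [map_one, map_one]⟩
      | of s => exact ⟨{s}, PresentedGroup.of ⟨s, by simp⟩, toAll_of M _ _⟩
      | inv_of s _ =>
        refine ⟨{s}, (PresentedGroup.of ⟨s, by simp⟩)⁻¹, ?_⟩
        rw [map_inv, map_inv]
        exact congrArg (fun x : ArtinGroup M => x⁻¹) (toAll_of M _ _)
      | mul a b iha ihb =>
        obtain ⟨i, y, hy⟩ := iha
        obtain ⟨j, z, hz⟩ := ihb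
        refine ⟨i ∪ j, incl M (Finset.coe_subset.2 Finset.subset_union_left) y *
          incl M (Finset.coe_subset.2 Finset.subset_union_right) z, ?_⟩
        rw [map_mul, toAll_incl, toAll_incl, hy, hz, map_mul]
    obtain ⟨w, rfl⟩ := PresentedGroup.mk_surjective (artinRels M) x
    exact key w
  · intro i y hy
    obtain ⟨w, rfl⟩ := PresentedGroup.mk_surjective (artinRels (res M (i : Set S))) y
    have h1 : toAll M (i : Set S) (PresentedGroup.mk _ w) =
        PresentedGroup.mk (artinRels M) (FreeGroup.map (fun s : (i : Set S) => s.1) w) := by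
      have : (toAll M (i : Set S)).comp (PresentedGroup.mk _) =
          (PresentedGroup.mk (artinRels M)).comp (FreeGroup.map fun s : (i : Set S) => s.1) := by
        refine FreeGroup.ext_hom _ _ fun s => ?_
        rw [MonoidHom.comp_apply, MonoidHom.comp_apply, FreeGroup.map.of]
        exact artinLift_of _ _ _ _
      exact congrArg (fun f : FreeGroup (i : Set S) →* ArtinGroup M => f w) this
    rw [h1] at hy
    have h2 : FreeGroup.map (fun s : (i : Set S) => s.1) w ∈
        Subgroup.normalClosure (artinRels M) := (QuotientGroup.eq_one_iff _).1 hy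
    obtain ⟨j₀, hj⟩ := exists_finset M h2
    refine ⟨i ∪ j₀, Finset.subset_union_left, ?_⟩
    rw [← hj (i ∪ j₀) Finset.subset_union_right]
    have h3 : (incl M (Finset.coe_subset.2 (Finset.subset_union_left (s₁ := i) (s₂ := j₀)))).comp
        (PresentedGroup.mk _) = (ret M ((i ∪ j₀ : Finset S) : Set S)).comp
          (FreeGroup.map fun s : (i : Set S) => s.1) := by
      refine FreeGroup.ext_hom _ _ fun s => ?_
      rw [MonoidHom.comp_apply, MonoidHom.comp_apply, FreeGroup.map.of,
        ret_of M (Finset.coe_subset.2 (Finset.subset_union_left (s₁ := i) (s₂ := j₀)) s.2)]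
      exact artinLift_of _ _ _ _
    exact congrArg (fun f : FreeGroup (i : Set S) →* ArtinGroup (res M ((i ∪ j₀ : Finset S) :
      Set S)) => f w) h3

end Pool.Agent.Helper54.LA
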