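import Pool.Agent.Helper54.LA.Rep
import Pool.Agent.Helper29.PA.Defs

/-!
# Groups of matrices over orders of number fields in classes of groups
-/

set_option autoImplicit false

namespace Pool.Agent.Helper54.LA

open scoped Matrix MatrixGroups

open Pool.Agent.Helper29.BA

variable {C : ∀ (G : Type) [Group G], Prop}

theorem mem_of_injective (hC : ClosedClass C) {G H : Type} [Group G] [Group H] (f : G →* H)
    (hf : Function.Injective f) (hH : C H) : C G :=
  hC.iso _ _ (MonoidHom.ofInjective hf).symm (hC.subgroup H f.range hH)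

theorem mem_units (hC : ClosedClass C) (hGL : ∀ n, C (GL (Fin n) ℤ)) (R S : Type) [CommRing R]
    [Module.Finite ℤ R] [Module.Free ℤ R] [Fintype S] [DecidableEq S] : C (Matrix S S R)ˣ := by
  let b := Module.finBasis ℤ (S → R)
  let n := Module.finrank ℤ (S → R)
  -- matrices as endomorphisms over the integers
  let f : Matrix S S R →* Matrix (Fin n) (Fin n) ℤ :=
    { toFun := fun A => LinearMap.toMatrix b b ((Matrix.toLin' A).restrictScalars ℤ)
      map_one' := by
        rw [Matrix.toLin'_one]
        exact LinearMap.toMatrix_one b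
      map_mul' := by
        intro A B
        rw [Matrix.toLin'_mul, ← LinearMap.toMatrix_mul]
        rfl }
  have hf : Function.Injective f := by
    intro A B h
    have h1 : (Matrix.toLin' A).restrictScalars ℤ = (Matrix.toLin' B).restrictScalars ℤ :=
      (LinearMap.toMatrix b b).injective h
    have h2 : Matrix.toLin' A = Matrix.toLin' B := LinearMap.restrictScalars_injective ℤ h1
    exact Matrix.toLin'.injective h2
  refine mem_of_injective hC (Units.map f) ?_ (hGL n)
  intro A B h
  exact Units.ext (hf (congrArg Units.val h))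

theorem exists_faithful (hC : ClosedClass C) (hGL : ∀ n, C (GL (Fin n) ℤ)) {S : Type} [Finite S]
    (M : S → S → ℕ) (hM : ∀ s t, s ≠ t → M s t = 0 ∨ 3 ≤ M s t) (hMs : ∀ s t, M s t = M t s) :
    ∃ (Q : Type) (_ : Group Q) (f : PresentedGroup (rels M) →* Q), C Q ∧
      (∀ s t, s ≠ t → M s t ≠ 0 →
        ∀ g ∈ Subgroup.closure {PresentedGroup.of s, PresentedGroup.of t}, f g = 1 → g = 1) ∧
      ∀ (s : S) (n : ℤ), f (PresentedGroup.of s ^ n) = 1 → n = 0 := by
  classical
  have : Fintype S := Fintype.ofFinite S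
  let _ : LinearOrder S := LinearOrder.lift' (Fintype.equivFin S) (Fintype.equivFin S).injective
  let R := Algebra.adjoin ℤ (Set.range fun p : S × S => lam (M p.1 p.2))
  have hfin : Module.Finite ℤ R := by
    refine Module.Finite.iff_fg.2 (fg_adjoin_of_finite (Set.finite_range _) ?_)
    rintro _ ⟨p, rfl⟩
    have := Real.isIntegral_two_mul_cos_rat_mul_pi (1 / (M p.1 p.2 : ℚ))
    have h1 : ((1 / (M p.1 p.2 : ℚ) : ℚ) : ℝ) * Real.pi = Real.pi / (M p.1 p.2 : ℝ) := by
      push_cast
      rw [one_div, inv_mul_eq_div]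
    rw [h1] at this
    exact this
  let f : R →+* ℝ := R.val.toRingHom
  have hf : Function.Injective f := Subtype.val_injective
  let L : S → S → R := fun s t => ⟨lam (M s t), Algebra.subset_adjoin ⟨(s, t), rfl⟩⟩
  have hL : ∀ s t, f (L s t) = lam (M s t) := fun _ _ => rfl
  refine ⟨(Matrix S S R)ˣ × Multiplicative ℤ, inferInstance,
    (rep f hf M hM hMs L hL).prod (deg M), hC.prod _ _ (mem_units hC hGL R S) hC.int, ?_, ?_⟩
  · intro s t hst h0 g hg h
    exact rep_faithful f hf M hM hMs L hL hst h0 g hg (congrArg Prod.fst h) (congrArg Prod.snd h)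
  · intro s n h
    have h1 : deg M (PresentedGroup.of s ^ n) = 1 := congrArg Prod.snd h
    rwa [map_zpow, deg_of, ← ofAdd_zsmul, smul_eq_mul, mul_one, ofAdd_eq_one] at h1

end Pool.Agent.Helper54.LA
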