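import Pool.Agent.Helper54.LA.Cls
import Pool.Agent.Helper13.LT.Defs

/-!
# Homomorphisms of Artin groups of large type which are injective on the dihedral parabolics
-/

set_option autoImplicit false

namespace Pool.Agent.Helper54.LA

open scoped Matrix MatrixGroups

open Pool.Agent.Helper29.BA Pool.Agent.Helper13.LT

theorem alt_eq {D : Type} [Group D] (x y : D) (n : ℕ) : alt x y n = bp (pr x y) true n := by
  have key : ∀ (n : ℕ) (x y : D), alt x y n = bp (pr x y) true n ∧
      alt y x n = bp (pr x y) false n := by
    intro n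
    induction n with
    | zero => exact fun x y => ⟨rfl, rfl⟩
    | succ n ih =>
      intro x y
      constructor
      · rw [alt, bp_succ, (ih x y).2]
        rfl
      · rw [alt, bp_succ, (ih x y).1]
        rfl
  exact (key n x y).1

theorem alt_eq' {D : Type} [Group D] (x y : D) (n : ℕ) : alt y x n = bp (pr x y) false n := by
  rw [alt_eq, bp_swap]
  rfl

variable {S : Type} (M : CoxeterMatrix S)

theorem artin_braid (s t : S) (h : M s t ≠ 0) :
    alt (PresentedGroup.of (rels := artinRels M) s) (PresentedGroup.of t) (M s t) =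
      alt (PresentedGroup.of (rels := artinRels M) t) (PresentedGroup.of s) (M s t) := by
  have h1 : ∀ b, PresentedGroup.mk (artinRels M)
      (bp (pr (FreeGroup.of s) (FreeGroup.of t)) b (M s t)) =
      bp (pr (PresentedGroup.of (rels := artinRels M) s) (PresentedGroup.of t)) b (M s t) := by
    intro b
    rw [map_bp, pr_map]
    rfl
  rw [alt_eq, alt_eq' (PresentedGroup.of s), ← h1, ← h1, ← mul_inv_eq_one, ← map_inv, ← map_mul]
  refine PresentedGroup.one_of_mem ⟨s, t, h, ?_⟩
  rw [alt_eq, alt_eq' (FreeGroup.of s)]

/-- The two presentations. -/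
def toR : ArtinGroup M →* PresentedGroup (rels fun s t => M s t) :=
  PresentedGroup.toGroup (f := PresentedGroup.of) (by
    rintro w ⟨s, t, h, rfl⟩
    rw [alt_eq, alt_eq' (FreeGroup.of s), map_mul, map_inv, mul_inv_eq_one, map_bp, map_bp, pr_map,
      FreeGroup.lift_apply_of, FreeGroup.lift_apply_of]
    rcases eq_or_ne s t with rfl | hst
    · rw [bp_swap]
      rfl
    · exact braid_of (fun s t => M s t) hst)

/-- The two presentations. -/
def ofR : PresentedGroup (rels fun s t => M s t) →* ArtinGroup M :=
  PresentedGroup.toGroup (f := PresentedGroup.of) (by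
    rintro w ⟨s, t, hst, rfl⟩
    rw [map_mul, map_inv, mul_inv_eq_one, map_bp, map_bp, pr_map,
      FreeGroup.lift_apply_of, FreeGroup.lift_apply_of]
    change bp _ true (M s t) = bp _ false (M s t)
    by_cases h : M s t = 0
    · rw [h]
      rfl
    · have := artin_braid M s t h
      rwa [alt_eq, alt_eq' (PresentedGroup.of s)] at this)

theorem toR_of (s : S) : toR M (PresentedGroup.of s) = PresentedGroup.of s :=
  PresentedGroup.toGroup.of _

theorem ofR_of (s : S) : ofR M (PresentedGroup.of s) = PresentedGroup.of s :=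
  PresentedGroup.toGroup.of _

theorem ofR_toR (g : ArtinGroup M) : ofR M (toR M g) = g := by
  have : (ofR M).comp (toR M) = MonoidHom.id _ := by
    refine PresentedGroup.ext fun s => ?_
    rw [MonoidHom.comp_apply, toR_of, ofR_of]
    rfl
  exact congrArg (fun f : ArtinGroup M →* ArtinGroup M => f g) this

/-- Artin groups of large type of finite rank have a homomorphism to a group of the class which is
injective on the dihedral parabolic subgroups and on the cyclic ones. -/
theorem artin_faithful2 {C : ∀ (G : Type) [Group G], Prop} (hC : ClosedClass C)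
    (hGL : ∀ n, C (GL (Fin n) ℤ)) [Finite S] (hM : IsLarge M) :
    ∃ (Q : Type) (_ : Group Q) (f : ArtinGroup M →* Q), C Q ∧
      (∀ s t, s ≠ t → M s t ≠ 0 →
        ∀ g ∈ Subgroup.closure {PresentedGroup.of s, PresentedGroup.of t}, f g = 1 → g = 1) ∧
      ∀ (s : S) (n : ℤ), f (PresentedGroup.of s ^ n) = 1 → n = 0 := by
  obtain ⟨Q, hQ, f, h1, h2, h5⟩ := exists_faithful hC hGL (fun s t => M s t)
    (fun s t hst => by
      have e1 := M.off_diagonal s t hst
      have e2 := hM s t
      by_cases h : M s t = 0
      · exact Or.inl h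
      · right
        change M s t ≠ 1 at e1
        omega)
    (fun s t => M.symmetric s t)
  refine ⟨Q, hQ, f.comp (toR M), h1, fun s t hst h0 g hg h => ?_, fun s n h => ?_⟩
  · have h3 := h2 s t hst h0 (toR M g) ?_ h
    · rw [← ofR_toR M g, h3, map_one]
    · have h4 := Subgroup.mem_map_of_mem (toR M) hg
      rw [MonoidHom.map_closure, Set.image_pair, toR_of, toR_of] at h4
      exact h4
  · rw [MonoidHom.comp_apply, map_zpow, toR_of] at h
    exact h5 s n h

/-- The part of the statement about the dihedral parabolic subgroups. -/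
theorem artin_faithful {C : ∀ (G : Type) [Group G], Prop} (hC : ClosedClass C)
    (hGL : ∀ n, C (GL (Fin n) ℤ)) [Finite S] (hM : IsLarge M) :
    ∃ (Q : Type) (_ : Group Q) (f : ArtinGroup M →* Q), C Q ∧
      ∀ s t, s ≠ t → M s t ≠ 0 → ∀ g ∈ Subgroup.closure {PresentedGroup.of s, PresentedGroup.of t},
        f g = 1 → g = 1 := by
  obtain ⟨Q, hQ, f, h1, h2, -⟩ := artin_faithful2 M hC hGL hM
  exact ⟨Q, hQ, f, h1, h2⟩

end Pool.Agent.Helper54.LA
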