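import Mathlib

/-!
# The braid group of a dihedral Artin group acts faithfully by matrices and degree
-/

set_option autoImplicit false

namespace Pool.Agent.Helper54.LA

section bp

variable {D : Type*} [Monoid D] (x : Bool → D)

/-- Alternating products `x b * x (!b) * x b * ...` with `r` factors. -/
def bp : Bool → ℕ → D
  | _, 0 => 1
  | b, r + 1 => x b * bp (!b) r

@[simp] theorem bp_zero (b : Bool) : bp x b 0 = 1 := rfl

theorem bp_succ (b : Bool) (r : ℕ) : bp x b (r + 1) = x b * bp x (!b) r := rfl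

theorem map_bp {E : Type*} [Monoid E] (f : D →* E) (b : Bool) (r : ℕ) :
    f (bp x b r) = bp (fun b => f (x b)) b r := by
  induction r generalizing b with
  | zero => simp
  | succ r ih => rw [bp_succ, bp_succ, map_mul, ih]

end bp

section words

variable {D : Type*} [Group D] (x : Bool → D)

/-- The `r`-th letter of an alternating word which starts with `b`. -/
def lt (b : Bool) (r : ℕ) : Bool := if Even r then b else !b

theorem bp_succ' (b : Bool) (r : ℕ) : bp x b (r + 1) = bp x b r * x (lt b r) := by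
  induction r generalizing b with
  | zero => simp [bp, lt]
  | succ r ih =>
    rw [bp_succ, ih, bp_succ, mul_assoc]
    congr 3
    unfold lt
    rcases Nat.even_or_odd r with h | h
    · rw [if_pos h, if_neg (Nat.not_even_iff_odd.2 h.add_one)]
    · rw [if_neg (Nat.not_even_iff_odd.2 h), if_pos h.add_one, Bool.not_not]

variable (m : ℕ)

/-- Elements given by reduced words with first letter `b`, the longest alternating prefix of which
has length `r`. -/
inductive Red : Bool → ℕ → D → Prop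
  | one (b : Bool) : Red b 1 (x b)
  | same (b : Bool) (r : ℕ) (g : D) : Red b r g → Red b 1 (x b * g)
  | alt (b : Bool) (r : ℕ) (g : D) : Red b r g → r + 1 < m → Red (!b) (r + 1) (x (!b) * g)

/-- Trivial or reduced. -/
def Nf (g : D) : Prop := g = 1 ∨ ∃ b r, Red x m b r g

variable {x m}

theorem Red.split {b : Bool} {r : ℕ} {g : D} (h : Red x m b r g) :
    ∃ g', g = bp x b r * g' ∧ Nf x m g' := by
  induction h with
  | one b => exact ⟨1, by simp [bp], Or.inl rfl⟩
  | same b r g h _ => exact ⟨g, by simp [bp], Or.inr ⟨b, r, h⟩⟩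
  | alt b r g h hr ih =>
    obtain ⟨g', hg, hn⟩ := ih
    exact ⟨g', by rw [hg, bp_succ, Bool.not_not, mul_assoc], hn⟩

theorem Red.pos {b : Bool} {r : ℕ} {g : D} (h : Red x m b r g) : 1 ≤ r := by
  cases h <;> omega

theorem Red.lt {b : Bool} {r : ℕ} {g : D} (h : Red x m b r g) (hm : 2 ≤ m) : r < m := by
  cases h <;> omega

/-- The Garside element. -/
def dl (x : Bool → D) (m : ℕ) : D := bp x true m

theorem bp_eq (hb : bp x true m = bp x false m) (b : Bool) : bp x b m = dl x m := by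
  cases b
  · exact hb.symm
  · rfl

theorem mul_dl (hb : bp x true m = bp x false m) (b : Bool) :
    x b * dl x m = dl x m * x (Pool.Agent.Helper54.LA.lt b m) := by
  rw [← bp_eq hb (!b), ← bp_succ, bp_succ', bp_eq hb, bp_eq hb]

theorem mul_dl_zpow (hb : bp x true m = bp x false m) (b : Bool) (j : ℤ) :
    ∃ b', x b * dl x m ^ j = dl x m ^ j * x b' := by
  have h1 : ∀ n : ℕ, ∀ b, ∃ b', x b * dl x m ^ n = dl x m ^ n * x b' := by
    intro n
    induction n with
    | zero => exact fun b => ⟨b, by simp⟩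
    | succ n ih =>
      intro b
      obtain ⟨b', hb'⟩ := ih b
      exact ⟨Pool.Agent.Helper54.LA.lt b' m, by
        rw [pow_succ, ← mul_assoc, hb', mul_assoc, mul_dl hb, mul_assoc]⟩
  have h2 : ∀ n : ℕ, ∀ b, ∃ b', x b * (dl x m ^ n)⁻¹ = (dl x m ^ n)⁻¹ * x b' := by
    intro n
    induction n with
    | zero => exact fun b => ⟨b, by simp⟩
    | succ n ih =>
      intro b
      have h3 : ∀ b, ∃ b', x b * (dl x m)⁻¹ = (dl x m)⁻¹ * x b' := by
        intro b
        have h4 : ∃ b', Pool.Agent.Helper54.LA.lt b' m = b := by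
          unfold Pool.Agent.Helper54.LA.lt
          by_cases h : Even m
          · exact ⟨b, by simp [h]⟩
          · exact ⟨!b, by simp [h]⟩
        obtain ⟨b', hb'⟩ := h4
        refine ⟨b', ?_⟩
        rw [mul_inv_eq_iff_eq_mul, mul_assoc, mul_dl hb, hb', inv_mul_cancel_left]
      obtain ⟨b', hb'⟩ := ih b
      obtain ⟨b'', hb''⟩ := h3 b'
      refine ⟨b'', ?_⟩
      rw [pow_succ', mul_inv_rev, ← mul_assoc, hb', mul_assoc, hb'', mul_assoc]
  rcases j with n | n
  · simpa using h1 n b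
  · simpa [zpow_negSucc] using h2 (n + 1) b

/-- Elements of the form `Δ ^ j * u` with `u` reduced. -/
def Nfm (x : Bool → D) (m : ℕ) (g : D) : Prop := ∃ (j : ℤ) (u : D), Nf x m u ∧ g = dl x m ^ j * u

theorem Nf.mul (hm : 2 ≤ m) (hb : bp x true m = bp x false m) (b : Bool) {u : D}
    (h : Nf x m u) : Nfm x m (x b * u) := by
  rcases h with rfl | ⟨c, r, h⟩
  · exact ⟨0, x b, Or.inr ⟨b, 1, Red.one b⟩, by simp⟩
  · by_cases hbc : b = c
    · subst hbc
      exact ⟨0, x b * u, Or.inr ⟨b, 1, Red.same b r u h⟩, by simp⟩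
    · have hb' : b = !c := by
        cases b <;> cases c <;> simp_all
      subst hb'
      by_cases hr : r + 1 < m
      · exact ⟨0, x (!c) * u, Or.inr ⟨!c, r + 1, Red.alt c r u h hr⟩, by simp⟩
      · have hr' : r + 1 = m := by
          have := h.lt hm
          omega
        obtain ⟨g', hg, hn⟩ := h.split
        refine ⟨1, g', hn, ?_⟩
        rw [zpow_one, hg, ← mul_assoc]
        congr 1
        rw [← bp_eq hb (!c), ← hr', bp_succ, Bool.not_not]

theorem Nfm.mul (hm : 2 ≤ m) (hb : bp x true m = bp x false m) (b : Bool) {g : D}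
    (h : Nfm x m g) : Nfm x m (x b * g) := by
  obtain ⟨j, u, hu, rfl⟩ := h
  obtain ⟨b', hb'⟩ := mul_dl_zpow hb b j
  obtain ⟨k, v, hv, hk⟩ := hu.mul hm hb b'
  refine ⟨j + k, v, hv, ?_⟩
  rw [← mul_assoc, hb', mul_assoc, hk, zpow_add, mul_assoc]

theorem Nfm.dl (j : ℤ) {g : D} (h : Nfm x m g) : Nfm x m (dl x m ^ j * g) := by
  obtain ⟨k, u, hu, rfl⟩ := h
  exact ⟨j + k, u, hu, by rw [zpow_add, mul_assoc]⟩

theorem Nfm.bp (hm : 2 ≤ m) (hb : bp x true m = bp x false m) (b : Bool) (r : ℕ) {g : D}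
    (h : Nfm x m g) : Nfm x m (bp x b r * g) := by
  induction r generalizing b with
  | zero => simpa using h
  | succ r ih =>
    rw [bp_succ, mul_assoc]
    exact (ih (!b)).mul hm hb b

theorem Nfm.inv_mul (hm : 2 ≤ m) (hb : Pool.Agent.Helper54.LA.bp x true m =
    Pool.Agent.Helper54.LA.bp x false m) (b : Bool) {g : D}
    (h : Nfm x m g) : Nfm x m ((x b)⁻¹ * g) := by
  obtain ⟨n, rfl⟩ : ∃ n, m = n + 1 := ⟨m - 1, by omega⟩
  have h1 : (x b)⁻¹ = Pool.Agent.Helper54.LA.bp x (!b) n *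
      (Pool.Agent.Helper54.LA.dl x (n + 1)) ^ (-1 : ℤ) := by
    rw [zpow_neg_one, ← bp_eq hb b, bp_succ, mul_inv_rev, mul_inv_cancel_left]
  rw [h1, mul_assoc]
  exact (h.dl (-1)).bp hm hb (!b) n

theorem nfm_all (hm : 2 ≤ m) (hb : Pool.Agent.Helper54.LA.bp x true m =
    Pool.Agent.Helper54.LA.bp x false m) (g : D)
    (hg : g ∈ Subgroup.closure (Set.range x)) : Nfm x m g := by
  induction hg using Subgroup.closure_induction_left with
  | one => exact ⟨0, 1, Or.inl rfl, by simp⟩
  | mul_left a ha g _ ih =>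
    obtain ⟨b, rfl⟩ := ha
    exact ih.mul hm hb b
  | inv_mul_cancel a ha g _ ih =>
    obtain ⟨b, rfl⟩ := ha
    exact ih.inv_mul hm hb b

end words

section mat

open scoped Matrix

/-- The rotation. -/
def J : Matrix (Fin 2) (Fin 2) ℝ := !![0, 1; -1, 0]

theorem J_sq : J * J = -1 := by
  unfold J
  ext i j
  fin_cases i <;> fin_cases j <;> simp

/-- The numbers `sin (r π / m) / sin (π / m)`. -/
noncomputable def sn (m : ℕ) (r : ℤ) : ℝ := Real.sin (r * (Real.pi / m)) / Real.sin (Real.pi / m)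

/-- The number `2 cos (π / m)`. -/
noncomputable def lam (m : ℕ) : ℝ := 2 * Real.cos (Real.pi / m)

variable {m : ℕ}

theorem sin_pos (hm : 2 ≤ m) : 0 < Real.sin (Real.pi / m) := by
  have h2 : (2 : ℝ) ≤ m := by exact_mod_cast hm
  refine Real.sin_pos_of_pos_of_lt_pi (by positivity) ?_
  rw [div_lt_iff₀ (by positivity)]
  nlinarith [Real.pi_pos]

theorem sn_one (hm : 2 ≤ m) : sn m 1 = 1 := by
  unfold sn
  rw [Int.cast_one, one_mul, div_self (sin_pos hm).ne']

theorem sn_zero : sn m 0 = 0 := by simp [sn]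

theorem sn_m (hm : 2 ≤ m) : sn m m = 0 := by
  unfold sn
  have h2 : (m : ℝ) ≠ 0 := by
    have : 0 < m := by omega
    positivity
  rw [Int.cast_natCast, mul_div_cancel₀ _ h2, Real.sin_pi, zero_div]

theorem sn_rec (r : ℤ) : sn m (r + 1) = lam m * sn m r - sn m (r - 1) := by
  have h1 : Real.sin (((r + 1 : ℤ) : ℝ) * (Real.pi / m)) =
      2 * Real.cos (Real.pi / m) * Real.sin (r * (Real.pi / m)) -
        Real.sin (((r - 1 : ℤ) : ℝ) * (Real.pi / m)) := by
    push_cast
    rw [add_mul, sub_mul, one_mul, Real.sin_add, Real.sin_sub]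
    ring
  unfold sn lam
  rw [h1]
  ring

theorem sn_sub (hm : 2 ≤ m) (r : ℤ) : sn m (m - r) = sn m r := by
  unfold sn
  have h2 : (m : ℝ) ≠ 0 := by
    have : 0 < m := by omega
    positivity
  congr 1
  push_cast
  rw [sub_mul, mul_div_cancel₀ _ h2, Real.sin_pi_sub]

theorem sn_nonneg (hm : 2 ≤ m) {r : ℤ} (h0 : 0 ≤ r) (h1 : r ≤ m) : 0 ≤ sn m r := by
  have h2 : (0 : ℝ) < m := by
    have : 0 < m := by omega
    positivity
  refine div_nonneg (Real.sin_nonneg_of_nonneg_of_le_pi ?_ ?_) (sin_pos hm).le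
  · have : (0 : ℝ) ≤ r := by exact_mod_cast h0
    positivity
  · have h3 : (r : ℝ) ≤ m := by exact_mod_cast h1
    rw [← mul_div_assoc, div_le_iff₀ h2]
    nlinarith [Real.pi_pos]

theorem sn_pos (hm : 2 ≤ m) {r : ℤ} (h0 : 0 < r) (h1 : r < m) : 0 < sn m r := by
  have h2 : (0 : ℝ) < m := by
    have : 0 < m := by omega
    positivity
  refine div_pos (Real.sin_pos_of_pos_of_lt_pi ?_ ?_) (sin_pos hm)
  · have : (0 : ℝ) < r := by exact_mod_cast h0
    positivity
  · have h3 : (r : ℝ) < m := by exact_mod_cast h1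
    rw [← mul_div_assoc, div_lt_iff₀ h2]
    nlinarith [Real.pi_pos]

/-- The concavity of the sequence: it grows up to the middle. -/
theorem one_le_sn (hm : 2 ≤ m) {r : ℤ} (h0 : 1 ≤ r) (h1 : r < m) : 1 ≤ sn m r := by
  have h2 : (0 : ℝ) < m := by
    have : 0 < m := by omega
    positivity
  unfold sn
  rw [le_div_iff₀ (sin_pos hm), one_mul]
  have hp : 0 < Real.pi / m := by positivity
  have e1 : (1 : ℝ) ≤ r := by exact_mod_cast h0
  have e2 : (r : ℝ) + 1 ≤ m := by exact_mod_cast h1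
  rcases le_total (r * (Real.pi / m)) (Real.pi / 2) with h | h
  · refine Real.sin_le_sin_of_le_of_le_pi_div_two ?_ h ?_
    · linarith [Real.pi_pos]
    · nlinarith
  · rw [← Real.sin_pi_sub (r * (Real.pi / m))]
    refine Real.sin_le_sin_of_le_of_le_pi_div_two ?_ ?_ ?_
    · linarith [Real.pi_pos]
    · linarith
    · have : Real.pi = m * (Real.pi / m) := by
        rw [mul_div_cancel₀ _ h2.ne']
      nlinarith

/-- The matrices of the alternating words up to rotations. -/
noncomputable def Mr (m : ℕ) (r : ℤ) : Matrix (Fin 2) (Fin 2) ℝ :=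
  !![sn m r, sn m (r - 1); sn m (r + 1), sn m r]

theorem Mr_one (hm : 2 ≤ m) : Mr m 1 = !![1, 0; lam m, 1] := by
  unfold Mr
  rw [sn_one hm, sub_self, sn_zero, sn_rec, sn_one hm, sub_self, sn_zero]
  simp

theorem Mr_succ (hm : 2 ≤ m) (r : ℤ) : Mr m 1 * J * Mr m r = Mr m (r + 1) := by
  rw [Mr_one hm]
  unfold Mr J
  have h1 := sn_rec (m := m) r
  have h2 := sn_rec (m := m) (r + 1)
  have h3 : r + 1 - 1 = r := by ring
  rw [h3] at h2
  ext i j
  fin_cases i <;> fin_cases j <;> simp [h1, h2, Matrix.mul_apply, Fin.sum_univ_two] <;> ring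

theorem Mr_m (hm : 2 ≤ m) : Mr m m = J := by
  unfold Mr J
  have h1 := sn_rec (m := m) m
  rw [h1, sn_m hm]
  have h2 := sn_sub hm 1
  rw [sn_one hm] at h2
  rw [h2]
  ext i j
  fin_cases i <;> fin_cases j <;> simp

theorem J_pow_even (a : ℕ) : J ^ (2 * a) = 1 ∨ J ^ (2 * a) = -1 := by
  rw [pow_mul, pow_two, J_sq]
  exact neg_one_pow_eq_or _ a

theorem J_pow_four : J ^ 4 = 1 := by
  have : J ^ 4 = J * J * (J * J) := by noncomm_ring
  rw [this, J_sq]
  simp

theorem J_pow_cases (c : ℕ) : J ^ c = 1 ∨ J ^ c = -1 ∨ J ^ c = J ∨ J ^ c = -J := by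
  rcases Nat.even_or_odd' c with ⟨a, rfl | rfl⟩
  · rcases J_pow_even a with h | h
    · exact Or.inl h
    · exact Or.inr (Or.inl h)
  · rw [pow_succ]
    rcases J_pow_even a with h | h
    · exact Or.inr (Or.inr (Or.inl (by rw [h, one_mul])))
    · exact Or.inr (Or.inr (Or.inr (by rw [h, neg_one_mul])))

/-- Even powers of the rotation are central. -/
theorem J_pow_comm (a : ℕ) (A : Matrix (Fin 2) (Fin 2) ℝ) : J ^ (2 * a) * A = A * J ^ (2 * a) := by
  rcases J_pow_even a with h | h <;> rw [h] <;> simp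

/-- Matrices with nonnegative entries and diagonal entries at least one. -/
def Big (N : Matrix (Fin 2) (Fin 2) ℝ) : Prop := ∀ i j, (1 : Matrix (Fin 2) (Fin 2) ℝ) i j ≤ N i j

theorem Big.one : Big 1 := fun _ _ => le_rfl

theorem Big.mul {M N : Matrix (Fin 2) (Fin 2) ℝ} (hM : Big M) (hN : Big N) :
    (∀ i j, M i j ≤ (M * N) i j) ∧ Big (M * N) := by
  have h : ∀ i j, M i j ≤ (M * N) i j := by
    intro i j
    rw [Matrix.mul_apply]
    have h0 : M i j = ∑ k, M i k * (1 : Matrix (Fin 2) (Fin 2) ℝ) k j := by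
      rw [← Matrix.mul_apply, mul_one]
    rw [h0]
    refine Finset.sum_le_sum fun k _ => mul_le_mul_of_nonneg_left (hN k j) ?_
    refine le_trans ?_ (hM i k)
    rw [Matrix.one_apply]
    split_ifs <;> norm_num
  exact ⟨h, fun i j => (hM i j).trans (h i j)⟩

theorem Mr_big (hm : 2 ≤ m) {r : ℕ} (h0 : 1 ≤ r) (h1 : r < m) : Big (Mr m r) := by
  have e1 : 1 ≤ sn m r := one_le_sn hm (by exact_mod_cast h0) (by exact_mod_cast h1)
  have e2 : 0 ≤ sn m (r - 1) := sn_nonneg hm (by omega) (by omega)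
  have e3 : 0 ≤ sn m (r + 1) := sn_nonneg hm (by omega) (by omega)
  intro i j
  unfold Mr
  fin_cases i <;> fin_cases j <;> simp [e1, e2, e3]

/-- The parity. -/
def par (b : Bool) : ℕ := if b then 1 else 0

/-- The two matrices. -/
noncomputable def y (m : ℕ) (b : Bool) : Matrix (Fin 2) (Fin 2) ℝ :=
  if b then !![1, -lam m; 0, 1] else !![1, 0; lam m, 1]

theorem y_eq (hm : 2 ≤ m) (b : Bool) : y m b = J ^ par b * Mr m 1 * J ^ (3 * par b) := by
  cases b
  · simp [par, y, Mr_one hm]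
  · have : J ^ 3 = -J := by
      rw [pow_succ, pow_two, J_sq, neg_one_mul]
    rw [Mr_one hm]
    simp only [par, if_true, mul_one, this, pow_one, y]
    unfold J
    ext i j
    fin_cases i <;> fin_cases j <;> simp

theorem bp_y (hm : 2 ≤ m) (b : Bool) (r : ℕ) (h1 : 1 ≤ r) :
    ∃ a e : ℕ, bp (y m) b r = J ^ (2 * a + par b) * Mr m r * J ^ e := by
  induction r, h1 using Nat.le_induction generalizing b with
  | base =>
    exact ⟨0, 3 * par b, by simp [bp, y_eq hm]⟩
  | succ r hr ih =>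
    obtain ⟨a, e, hg⟩ := ih (!b)
    have hk : ∃ d, 3 * par b + (2 * a + par (!b)) = 2 * d + 1 := by
      have : par b + par (!b) = 1 := by cases b <;> rfl
      exact ⟨a + par b, by omega⟩
    obtain ⟨d, hd⟩ := hk
    refine ⟨d, e, ?_⟩
    calc bp (y m) b (r + 1) = J ^ (par b) * Mr m 1 *
            (J ^ (3 * par b) * J ^ (2 * a + par (!b))) * Mr m r * J ^ e := by
          rw [bp_succ, y_eq hm, hg]
          noncomm_ring
      _ = J ^ (par b) * (Mr m 1 * J ^ (2 * d)) * J * Mr m r * J ^ e := by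
          rw [← pow_add, hd, pow_succ]
          noncomm_ring
      _ = J ^ (2 * d + par b) * (Mr m 1 * J * Mr m r) * J ^ e := by
          rw [← J_pow_comm, add_comm (2 * d), pow_add]
          noncomm_ring
      _ = _ := by rw [Mr_succ hm]; norm_num

theorem bp_y_m (hm : 2 ≤ m) (b : Bool) : ∃ c : ℕ, bp (y m) b m = J ^ c := by
  obtain ⟨a, e, h⟩ := bp_y hm b m (by omega)
  rw [Mr_m hm] at h
  exact ⟨2 * a + par b + 1 + e, by rw [h, pow_add J (2 * a + par b + 1) e, pow_succ]⟩

theorem y_not (hm : 2 ≤ m) (b : Bool) : J * y m b = y m (!b) * J := by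
  have h4 := J_pow_four
  have h2 : ∀ A : Matrix (Fin 2) (Fin 2) ℝ, J ^ 2 * A = A * J ^ 2 := J_pow_comm 1
  cases b
  · rw [y_eq hm, y_eq hm]
    simp only [par, Bool.not_false, if_true, pow_one, pow_zero, mul_zero, mul_one, one_mul,
      Bool.false_eq_true, if_false]
    have h5 : J ^ 3 * J = 1 := by rw [← pow_succ, h4]
    rw [mul_assoc, mul_assoc, h5, mul_one]
  · rw [y_eq hm, y_eq hm]
    simp only [par, Bool.not_true, if_true, pow_one, pow_zero, mul_zero, mul_one, one_mul,
      Bool.false_eq_true, if_false]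
    rw [← mul_assoc, ← mul_assoc, ← pow_two, h2, mul_assoc, ← pow_add, pow_succ, h4, one_mul]

theorem bp_y_not (hm : 2 ≤ m) (b : Bool) (r : ℕ) : J * bp (y m) b r = bp (y m) (!b) r * J := by
  induction r generalizing b with
  | zero => simp
  | succ r ih => rw [bp_succ, bp_succ, ← mul_assoc, y_not hm, mul_assoc, ih, mul_assoc]

/-- The braid relation for the two matrices. -/
theorem braid_y (hm : 2 ≤ m) : bp (y m) true m = bp (y m) false m := by
  obtain ⟨c, hc⟩ := bp_y_m hm false
  have h := bp_y_not hm false m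
  rw [hc, ← pow_succ'] at h
  have h1 : bp (y m) true m * J * J ^ 3 = J ^ (c + 1) * J ^ 3 := by
    rw [h]
    rfl
  rw [mul_assoc, ← pow_succ', J_pow_four, mul_one, ← pow_add, show c + 1 + 3 = c + 4 by ring,
    pow_add, J_pow_four, mul_one] at h1
  rw [h1, hc]

variable {D : Type*} [Group D] {x : Bool → D} (ρ : D →* Matrix (Fin 2) (Fin 2) ℝ)

theorem rho_red (hm : 2 ≤ m) (hy : ∀ b, ρ (x b) = y m b) {b : Bool} {r : ℕ} {g : D} (h : Red x m b r g) :
    ∃ (a e : ℕ) (N : Matrix (Fin 2) (Fin 2) ℝ), Big N ∧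
      ρ g = J ^ (2 * a + par b) * Mr m r * N * J ^ e := by
  have hx : ∀ b, ∃ e : ℕ, ρ (x b) = J ^ (par b) * Mr m 1 * J ^ e ∧ Even (e + par b) :=
    fun b => ⟨3 * par b, by rw [hy, y_eq hm], ⟨2 * par b, by ring⟩⟩
  induction h with
  | one b =>
    obtain ⟨e, he, -⟩ := hx b
    exact ⟨0, e, 1, Big.one, by rw [he]; simp⟩
  | same b r g h ih =>
    obtain ⟨a, e, N, hN, hg⟩ := ih
    obtain ⟨e', he', hev⟩ := hx b
    obtain ⟨c, hc⟩ := hev
    have hk : e' + (2 * a + par b) = 2 * (a + c) := by omega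
    refine ⟨a + c, e, Mr m r * N, ((Mr_big hm h.pos (h.lt hm)).mul hN).2, ?_⟩
    calc ρ (x b * g) = J ^ (par b) * Mr m 1 * (J ^ e' * J ^ (2 * a + par b)) * Mr m r * N * J ^ e := by
          rw [map_mul, he', hg]
          noncomm_ring
      _ = J ^ (par b) * (Mr m 1 * J ^ (2 * (a + c))) * Mr m r * N * J ^ e := by
          rw [← pow_add, hk]
          noncomm_ring
      _ = J ^ (2 * (a + c) + par b) * Mr m 1 * (Mr m r * N) * J ^ e := by
          rw [← J_pow_comm, add_comm (2 * (a + c)), pow_add]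
          noncomm_ring
      _ = _ := by norm_num
  | alt b r g h hr ih =>
    obtain ⟨a, e, N, hN, hg⟩ := ih
    obtain ⟨e', he', hev⟩ := hx (!b)
    obtain ⟨c, hc⟩ := hev
    have hk : ∃ d, e' + (2 * a + par b) = 2 * d + 1 := by
      have : par b + par (!b) = 1 := by cases b <;> rfl
      exact ⟨a + c - par (!b), by omega⟩
    obtain ⟨d, hd⟩ := hk
    refine ⟨d, e, N, hN, ?_⟩
    calc ρ (x (!b) * g) = J ^ (par (!b)) * Mr m 1 * (J ^ e' * J ^ (2 * a + par b)) * Mr m r * N *
            J ^ e := by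
          rw [map_mul, he', hg]
          noncomm_ring
      _ = J ^ (par (!b)) * (Mr m 1 * J ^ (2 * d)) * J * Mr m r * N * J ^ e := by
          rw [← pow_add, hd, pow_succ]
          noncomm_ring
      _ = J ^ (2 * d + par (!b)) * (Mr m 1 * J * Mr m r) * N * J ^ e := by
          rw [← J_pow_comm, add_comm (2 * d), pow_add]
          noncomm_ring
      _ = _ := by rw [Mr_succ hm]; norm_num

theorem rho_dl (hm : 2 ≤ m) (hy : ∀ b, ρ (x b) = y m b) (j : ℤ) :
    ∃ c : ℕ, ρ (dl x m ^ j) = J ^ c := by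
  obtain ⟨c', h⟩ := bp_y_m hm true
  have h1 : ρ (dl x m) = J ^ c' := by
    unfold dl
    rw [map_bp, ← h]
    simp only [hy]
  have h2 : ∀ n : ℕ, ρ (dl x m ^ n) = J ^ (c' * n) := by
    intro n
    rw [map_pow, h1, pow_mul]
  rcases j with n | n
  · exact ⟨_, by simpa using h2 n⟩
  · refine ⟨3 * (c' * (n + 1)), ?_⟩
    rw [zpow_negSucc]
    have h3 : ρ (dl x m ^ (n + 1)) * ρ ((dl x m ^ (n + 1))⁻¹) = 1 := by
      rw [← map_mul, mul_inv_cancel, map_one]
    rw [h2] at h3
    generalize c' * (n + 1) = c at h3 ⊢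
    have h4 : J ^ (3 * c) * J ^ c = 1 := by
      rw [← pow_add, show 3 * c + c = 4 * c by ring, pow_mul, J_pow_four, one_pow]
    calc ρ ((dl x m ^ (n + 1))⁻¹) = J ^ (3 * c) * J ^ c * ρ ((dl x m ^ (n + 1))⁻¹) := by
          rw [h4, one_mul]
      _ = J ^ (3 * c) * (J ^ c * ρ ((dl x m ^ (n + 1))⁻¹)) := by rw [mul_assoc]
      _ = _ := by rw [h3, mul_one]

/-- The representation together with the degree is faithful. -/
theorem dih_faithful (hm : 3 ≤ m) (hb : bp x true m = bp x false m)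
    (hy : ∀ b, ρ (x b) = y m b)
    (δ : D →* Multiplicative ℤ) (hδ : ∀ b, δ (x b) = Multiplicative.ofAdd 1) (g : D)
    (hg : g ∈ Subgroup.closure (Set.range x)) (h1 : ρ g = 1) (h2 : δ g = 1) : g = 1 := by
  have hm2 : 2 ≤ m := by omega
  obtain ⟨j, u, hu, rfl⟩ := nfm_all hm2 hb g hg
  obtain ⟨c, hc⟩ := rho_dl ρ hm2 hy j
  rcases hu with rfl | ⟨b, r, hu⟩
  · rw [mul_one] at h2 ⊢
    have h3 : ∀ (b : Bool) (n : ℕ), δ (bp x b n) = Multiplicative.ofAdd (n : ℤ) := by
      intro b n
      induction n generalizing b with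
      | zero => simp
      | succ n ih =>
        rw [bp_succ, map_mul, ih, hδ, ← ofAdd_add]
        push_cast
        rw [add_comm]
    rw [map_zpow] at h2
    unfold dl at h2 ⊢
    rw [h3, ← ofAdd_zsmul, ofAdd_eq_one, smul_eq_mul] at h2
    have : j = 0 := by
      rcases mul_eq_zero.1 h2 with h | h
      · exact h
      · exact absurd h (by exact_mod_cast (by omega : m ≠ 0))
    rw [this, zpow_zero]
  · exfalso
    obtain ⟨a, e, N, hN, hg⟩ := rho_red ρ hm2 hy hu
    rw [map_mul, hc, hg] at h1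
    have h3 : ∃ n : ℕ, Mr m r * N = J ^ n := by
      generalize 2 * a + par b = k at h1
      have e1 : J ^ (c + k) * (Mr m r * N) * J ^ e = 1 := by
        rw [← h1, pow_add]
        noncomm_ring
      generalize c + k = l at e1
      generalize Mr m r * N = A at e1 ⊢
      have e4 : ∀ d : ℕ, J ^ (3 * d) * J ^ d = 1 := by
        intro d
        rw [← pow_add, show 3 * d + d = 4 * d by ring, pow_mul, J_pow_four, one_pow]
      have e5 : ∀ d : ℕ, J ^ d * J ^ (3 * d) = 1 := by
        intro d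
        rw [← pow_add, show d + 3 * d = 4 * d by ring, pow_mul, J_pow_four, one_pow]
      refine ⟨3 * l + 3 * e, ?_⟩
      calc A = (J ^ (3 * l) * J ^ l) * A * (J ^ e * J ^ (3 * e)) := by
            rw [e4, e5, one_mul, mul_one]
        _ = J ^ (3 * l) * (J ^ l * A * J ^ e) * J ^ (3 * e) := by
            noncomm_ring
        _ = _ := by rw [e1, mul_one, ← pow_add]
    obtain ⟨n, h3⟩ := h3
    have hB := (Mr_big hm2 hu.pos (hu.lt hm2)).mul hN
    have h00 := hB.2 0 0
    have h01 := hB.1 0 1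
    have h10 := hB.1 1 0
    have hr1 := hu.pos
    have hr2 := hu.lt hm2
    have hpos : 0 < Mr m r 0 1 ∨ 0 < Mr m r 1 0 := by
      by_cases h : 2 ≤ r
      · left
        have : 0 < sn m ((r : ℤ) - 1) := sn_pos hm2 (by omega) (by omega)
        simpa [Mr] using this
      · right
        have : 0 < sn m ((r : ℤ) + 1) := sn_pos hm2 (by omega) (by omega)
        simpa [Mr] using this
    rw [h3] at h00 h01 h10
    have e00 : (1 : Matrix (Fin 2) (Fin 2) ℝ) 0 0 = 1 := by simp
    have e01 : (1 : Matrix (Fin 2) (Fin 2) ℝ) 0 1 = 0 := by simp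
    have e10 : (1 : Matrix (Fin 2) (Fin 2) ℝ) 1 0 = 0 := by simp
    rcases J_pow_cases n with h | h | h | h
    · rw [h] at h01 h10
      rw [e01] at h01
      rw [e10] at h10
      rcases hpos with h | h <;> linarith
    · rw [h] at h00
      simp at h00
      linarith
    · rw [h] at h00
      simp [J] at h00
      linarith
    · rw [h] at h00
      simp [J] at h00
      linarith

end mat

end Pool.Agent.Helper54.LA
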