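import Pool.Agent.Helper54.LA.Lim
import Pool.Agent.Helper26.LT.Kt

/-!
# Artin groups of large type
-/

set_option autoImplicit false

namespace Pool.Agent.Helper54.LA

open Relation Pool.Agent.Helper29.BA Pool.Agent.Helper29.PA Pool.Agent.Helper3.FJ
  Pool.Agent.Helper13.LT Pool.Agent.Helper26.LT

open scoped MatrixGroups

variable {S : Type} (M : CoxeterMatrix S)

/-- A homomorphism which is injective on the cyclic and on the dihedral parabolic subgroups is
injective on the stabilizers of the vertices. -/
theorem stab_injective {Q : Type} [Group Q] (f : ArtinGroup M →* Q)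
    (h1 : ∀ s t, s ≠ t → M s t ≠ 0 →
      ∀ g ∈ Subgroup.closure {PresentedGroup.of s, PresentedGroup.of t}, f g = 1 → g = 1)
    (h2 : ∀ (s : S) (n : ℤ), f (PresentedGroup.of s ^ n) = 1 → n = 0) (v : Vx M)
    (g : ArtinGroup M) (hg : g • v = v) (hf : f g = 1) : g = 1 := by
  classical
  have hcyc : ∀ (s : S) (x : ArtinGroup M), x ∈ Subgroup.zpowers (gen M s) → f x = 1 → x = 1 := by
    intro s x hx hfx
    obtain ⟨n, rfl⟩ := Subgroup.mem_zpowers_iff.1 hx
    rw [h2 s n hfx, zpow_zero]
  have key : ∀ (T : Typ M) (x : ArtinGroup M), x ∈ Par M T → f x = 1 → x = 1 := by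
    intro T x hx hfx
    -- the generators in the type
    by_cases h0 : ∃ s, some s ∈ T.1
    · obtain ⟨s, hs⟩ := h0
      by_cases h3 : ∃ t, t ≠ s ∧ some t ∈ T.1
      · obtain ⟨t, hts, ht⟩ := h3
        have hT : T.1 = {some s, some t} := by
          refine (Finset.eq_of_subset_of_card_le ?_ ?_).symm
          · intro y hy
            rw [Finset.mem_insert, Finset.mem_singleton] at hy
            rcases hy with rfl | rfl
            · exact hs
            · exact ht
          · rw [Finset.card_pair (by simpa using hts.symm)]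
            exact T.2.1
        refine h1 s t hts.symm (T.2.2 s t hs ht) x ?_ hfx
        refine (Subgroup.closure_mono ?_) hx
        rintro a ⟨r, hr, rfl⟩
        rw [hT, Finset.mem_insert, Finset.mem_singleton] at hr
        rcases hr with hr | hr
        · rw [Option.some.inj hr]
          exact Or.inl rfl
        · rw [Option.some.inj hr]
          exact Or.inr rfl
      · push Not at h3
        refine hcyc s x ?_ hfx
        rw [Subgroup.zpowers_eq_closure]
        refine (Subgroup.closure_mono ?_) hx
        rintro a ⟨r, hr, rfl⟩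
        have : r = s := by
          by_contra hrs
          exact h3 r hrs hr
        rw [this]
        rfl
    · push Not at h0
      have : Par M T = ⊥ := by
        rw [eq_bot_iff]
        refine (Subgroup.closure_le _).2 ?_
        rintro a ⟨s, hs, -⟩
        exact absurd hs (h0 s)
      rw [this, Subgroup.mem_bot] at hx
      exact hx
  obtain ⟨T, a, rfl⟩ := exists_mk v
  rw [smul_mk, mk_eq] at hg
  have h3 := key T _ hg.2 (by
    rw [map_mul, map_inv, map_mul, hf, one_mul, inv_mul_cancel])
  exact mul_eq_right.1 (inv_mul_eq_one.1 h3)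

/-- The assembly for finite rank; `main` is the theorem about groups acting on kite complexes,
`hX` is the simple connectivity of the coset complex. -/
theorem artin_finite {C : ∀ (G : Type) [Group G], Prop} (hC : ClosedClass C)
    (hGL : ∀ n, C (GL (Fin n) ℤ)) [Finite S] (hM : IsLarge M)
    (hX : Nonempty S → (cx M).SimplyConn)
    (main : ∀ {V : Type} {X : Cpx V} {k : V → ℕ} {G : Type} [Group G] [MulAction G V], Kt X k →
      (∀ c, k c = 0 → {x | X.adj c x}.Finite) → (∀ p, k p = 1 → ∃ c, k c = 0 ∧ X.adj p c) →
      ActsK G X k → X.SimplyConn →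
      (∀ K : Finset V, ∃ (Q : Type) (_ : Group Q) (f : G →* Q), C Q ∧
        ∀ v ∈ K, ∀ g : G, g • v = v → f g = 1 → g = 1) → C G) : C (ArtinGroup M) := by
  rcases isEmpty_or_nonempty S with hS | hS
  · refine hC.finite _ ?_
    have : Subsingleton (ArtinGroup M) := by
      refine ⟨fun a b => ?_⟩
      obtain ⟨a, rfl⟩ := PresentedGroup.mk_surjective _ a
      obtain ⟨b, rfl⟩ := PresentedGroup.mk_surjective _ b
      rw [Subsingleton.elim a b]
    infer_instance
  · obtain ⟨Q, hQ, f, h1, h2, h3⟩ := artin_faithful2 M hC hGL hM
    refine main (X := cx M) (k := rk) (kt (fun s t hst a b h => (zpow_eq M hM hst h).1)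
      (fun s t hst _ a b c d h => four M hM hst h)) (fun c hc => ?_) (fun p hp => ?_) actsK (hX hS)
      fun K => ⟨Q, hQ, f, h1, fun v _ g hg hf => stab_injective M f h2 h3 v g hg hf⟩
    · exact finite_adj c hc
    · exact exists_chamber p hp

theorem res_large (hM : IsLarge M) (i : Set S) : IsLarge (res M i) := fun s t => hM s t

end Pool.Agent.Helper54.LA
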