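import Pool.Agent.Helper54.LA.Dih

/-!
# Representations of Artin groups of large type by transvections
-/

set_option autoImplicit false

namespace Pool.Agent.Helper54.LA

open scoped Matrix MatrixGroups

section pair

variable {R : Type*} [CommRing R]

/-- The two matrices over a ring. -/
def yy (l : R) (b : Bool) : Matrix (Fin 2) (Fin 2) R :=
  if b then !![1, -l; 0, 1] else !![1, 0; l, 1]

theorem yy_real (m : ℕ) (b : Bool) : yy (lam m) b = y m b := by
  cases b <;> rfl

theorem yy_map {R' : Type*} [CommRing R'] (f : R →+* R') (l : R) (b : Bool) :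
    f.mapMatrix (yy l b) = yy (f l) b := by
  cases b <;> ext i j <;> fin_cases i <;> fin_cases j <;> simp [yy]

theorem braid_yy (f : R →+* ℝ) (hf : Function.Injective f) (l : R) {m : ℕ} (hm : 2 ≤ m)
    (hl : f l = lam m) : bp (yy l) true m = bp (yy l) false m := by
  have hinj : Function.Injective (f.mapMatrix : Matrix (Fin 2) (Fin 2) R →+* _) := by
    intro A B h
    ext i j
    exact hf (congrFun (congrFun h i) j)
  apply hinj
  have h : ∀ b, f.mapMatrix (bp (yy l) b m) = bp (y m) b m := by
    intro b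
    have h1 := map_bp (yy l) (f.mapMatrix : Matrix (Fin 2) (Fin 2) R →+* _).toMonoidHom b m
    have h2 : (fun b => (f.mapMatrix : Matrix (Fin 2) (Fin 2) R →+* _).toMonoidHom (yy l b)) =
        y m := by
      funext b
      change f.mapMatrix (yy l b) = _
      rw [yy_map, hl, yy_real]
    rw [h2] at h1
    exact h1
  rw [h, h, braid_y hm]

variable {S : Type*} [Fintype S] [DecidableEq S] (C : Matrix S S R)

/-- The transvection. -/
def tv (s : S) : Matrix S S R := 1 + Matrix.single s s 1 * C

/-- The inverse of the transvection. -/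
def tv' (s : S) : Matrix S S R := 1 - Matrix.single s s 1 * C

variable {C}

theorem tv_sq (hC : ∀ s, C s s = 0) (s : S) :
    Matrix.single s s 1 * C * (Matrix.single s s 1 * C) = 0 := by
  rw [← mul_assoc, Matrix.single_mul_mul_single, hC]
  simp

variable (C) in
/-- The transvection as an invertible matrix. -/
def tvu (hC : ∀ s, C s s = 0) (s : S) : (Matrix S S R)ˣ where
  val := tv C s
  inv := tv' C s
  val_inv := by
    unfold tv tv'
    rw [mul_sub, add_mul, add_mul, tv_sq hC]
    simp
  inv_val := by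
    unfold tv tv'
    rw [mul_add, sub_mul, sub_mul, tv_sq hC]
    simp

variable (R) in
/-- The embedding of a plane. -/
def em (q : Fin 2 → S) : Matrix S (Fin 2) R := Matrix.of fun i k => if i = q k then 1 else 0

theorem em_em {q : Fin 2 → S} (hq : Function.Injective q) :
    (em R q)ᵀ * em R q = 1 := by
  ext i j
  rw [Matrix.mul_apply, Finset.sum_eq_single (q i)]
  · simp [em, Matrix.one_apply, hq.eq_iff]
  · intro b _ hb
    simp [em, hb]
  · simp

omit [Fintype S] in
theorem em_single (q : Fin 2 → S) (k : Fin 2) :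
    em R q * Matrix.single k k (1 : R) * (em R q)ᵀ = Matrix.single (q k) (q k) 1 := by
  ext i j
  rw [Matrix.mul_apply, Finset.sum_eq_single k]
  · rw [Matrix.mul_single_apply_same]
    simp only [em, Matrix.of_apply, Matrix.transpose_apply, Matrix.single_apply, mul_one]
    by_cases h1 : i = q k <;> by_cases h2 : j = q k <;> simp [h1, h2, eq_comm]
  · intro b _ hb
    rw [Matrix.mul_single_apply_of_ne (hbj := hb), zero_mul]
  · simp

theorem tv_eq (q : Fin 2 → S) (k : Fin 2) :
    tv C (q k) = 1 + em R q * Matrix.single k k (1 : R) * ((em R q)ᵀ * C) := by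
  unfold tv
  rw [← em_single]
  simp only [Matrix.mul_assoc]

theorem tv'_eq (q : Fin 2 → S) (k : Fin 2) :
    tv' C (q k) = 1 - em R q * Matrix.single k k (1 : R) * ((em R q)ᵀ * C) := by
  unfold tv'
  rw [← em_single]
  simp only [Matrix.mul_assoc]

/-- The restriction of the form to the plane. -/
theorem em_C (q : Fin 2 → S) (i j : Fin 2) :
    ((em R q)ᵀ * C * em R q) i j = C (q i) (q j) := by
  rw [Matrix.mul_apply, Finset.sum_eq_single (q j)]
  · rw [Matrix.mul_apply, Finset.sum_eq_single (q i)]
    · simp [em]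
    · intro b _ hb
      simp [em, hb]
    · simp
  · intro b _ hb
    simp [em, hb]
  · simp

/-- The index of a letter. -/
def ix (b : Bool) : Fin 2 := if b then 0 else 1

/-- A form on the plane. -/
def fm (l : R) : Matrix (Fin 2) (Fin 2) R := !![0, -l; l, 0]

theorem yy_eq (l : R) (b : Bool) : yy l b = 1 + Matrix.single (ix b) (ix b) 1 * fm l := by
  cases b <;> ext i j <;> fin_cases i <;> fin_cases j <;>
    simp [yy, ix, fm, Matrix.single, Matrix.mul_apply]

variable {q : Fin 2 → S} {l : R}

theorem bp_tv (hl : (em R q)ᵀ * C * em R q = fm l) (b : Bool) (r : ℕ) :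
    ∃ X : Matrix (Fin 2) (Fin 2) R,
      bp (fun b => tv C (q (ix b))) b r = 1 + em R q * X * ((em R q)ᵀ * C) ∧
      bp (yy l) b r = 1 + X * fm l := by
  induction r generalizing b with
  | zero => exact ⟨0, by simp, by simp⟩
  | succ r ih =>
    obtain ⟨X, h1, h2⟩ := ih (!b)
    refine ⟨Matrix.single (ix b) (ix b) 1 + X + Matrix.single (ix b) (ix b) 1 * fm l * X, ?_, ?_⟩
    · rw [bp_succ, h1, tv_eq, ← hl]
      simp only [Matrix.mul_add, Matrix.add_mul, Matrix.mul_one, Matrix.one_mul, Matrix.mul_assoc]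
      abel
    · rw [bp_succ, h2, yy_eq]
      simp only [mul_add, add_mul, mul_one, one_mul, mul_assoc]
      abel

theorem braid_tv (hl : (em R q)ᵀ * C * em R q = fm l) (f : R →+* ℝ)
    (hf : Function.Injective f) {m : ℕ} (hm : 3 ≤ m) (hfl : f l = lam m) :
    bp (fun b => tv C (q (ix b))) true m = bp (fun b => tv C (q (ix b))) false m := by
  obtain ⟨X, h1, h2⟩ := bp_tv hl true m
  obtain ⟨Y, h3, h4⟩ := bp_tv hl false m
  rw [h1, h3]
  have h5 : X * fm l = Y * fm l := by
    have := braid_yy f hf l (by omega) hfl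
    rw [h2, h4] at this
    exact add_left_cancel this
  have h6 : ∀ x : R, x * l = 0 → x = 0 := by
    intro x hx
    have h7 : f x * f l = 0 := by rw [← map_mul, hx, map_zero]
    have h8 : lam m ≠ 0 := by
      unfold lam
      have h9 : 0 < Real.cos (Real.pi / m) := by
        refine Real.cos_pos_of_mem_Ioo ⟨?_, ?_⟩
        · have : 0 ≤ Real.pi / m := by positivity
          linarith [Real.pi_pos]
        · have : (3 : ℝ) ≤ m := by exact_mod_cast hm
          rw [div_lt_div_iff₀ (by linarith) (by norm_num)]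
          nlinarith [Real.pi_pos]
      positivity
    rw [hfl] at h7
    apply hf
    rw [map_zero]
    exact (mul_eq_zero.1 h7).resolve_right h8
  have h7 : X = Y := by
    have h8 : ∀ i j, ((X - Y) * fm l) i j = 0 := by
      intro i j
      rw [sub_mul, h5, sub_self]
      rfl
    ext i j
    have h9 := h8 i 0
    have h10 := h8 i 1
    simp only [Matrix.mul_apply, Fin.sum_univ_two, fm, Matrix.sub_apply] at h9 h10
    simp at h9 h10
    fin_cases j
    · exact sub_eq_zero.1 (h6 _ (by simpa using h10))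
    · exact sub_eq_zero.1 (h6 _ (by simpa using h9))
  rw [h7]

variable {D : Type*} [Group D] {x : Bool → D}

theorem exists_restr (hx : Subgroup.closure (Set.range x) = ⊤) (hC : ∀ s, C s s = 0)
    (φ : D →* (Matrix S S R)ˣ) (hφ : ∀ b, φ (x b) = tvu C hC (q (ix b)))
    (hq : Function.Injective q) (hl : (em R q)ᵀ * C * em R q = fm l) :
    ∃ ψ : D →* Matrix (Fin 2) (Fin 2) R, (∀ b, ψ (x b) = yy l b) ∧ ∀ g, φ g = 1 → ψ g = 1 := by
  have hE := em_em (R := R) hq
  have h1 : ∀ k, tv C (q k) * em R q = em R q * (1 + Matrix.single k k 1 * fm l) := by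
    intro k
    rw [tv_eq, ← hl]
    simp only [Matrix.mul_add, Matrix.add_mul, Matrix.mul_one, Matrix.one_mul, Matrix.mul_assoc]
  have h2 : ∀ k, tv' C (q k) * em R q = em R q * (1 - Matrix.single k k 1 * fm l) := by
    intro k
    rw [tv'_eq, ← hl]
    simp only [Matrix.mul_sub, Matrix.sub_mul, Matrix.mul_one, Matrix.one_mul, Matrix.mul_assoc]
  have h3 : ∀ g : D, ∃ Y : Matrix (Fin 2) (Fin 2) R, ((φ g : (Matrix S S R)ˣ) : Matrix S S R) * em R q = em R q * Y := by
    intro g
    have hg : g ∈ Subgroup.closure (Set.range x) := by rw [hx]; trivial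
    induction hg using Subgroup.closure_induction_left with
    | one => exact ⟨1, by rw [map_one, Units.val_one, Matrix.one_mul, Matrix.mul_one]⟩
    | mul_left a ha g _ ih =>
      obtain ⟨b, rfl⟩ := ha
      obtain ⟨Y, hY⟩ := ih
      refine ⟨(1 + Matrix.single (ix b) (ix b) 1 * fm l) * Y, ?_⟩
      rw [map_mul, Units.val_mul, Matrix.mul_assoc, hY, hφ, ← Matrix.mul_assoc,
        ← Matrix.mul_assoc]
      congr 1
      exact h1 _
    | inv_mul_cancel a ha g _ ih =>
      obtain ⟨b, rfl⟩ := ha
      obtain ⟨Y, hY⟩ := ih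
      refine ⟨(1 - Matrix.single (ix b) (ix b) 1 * fm l) * Y, ?_⟩
      rw [map_mul, map_inv, Units.val_mul, Matrix.mul_assoc, hY, hφ, ← Matrix.mul_assoc,
        ← Matrix.mul_assoc]
      congr 1
      exact h2 _
  have h4 : ∀ g : D, ((φ g : (Matrix S S R)ˣ) : Matrix S S R) * em R q =
      em R q * ((em R q)ᵀ * ((φ g : (Matrix S S R)ˣ) : Matrix S S R) * em R q) := by
    intro g
    obtain ⟨Y, hY⟩ := h3 g
    rw [Matrix.mul_assoc, hY, ← Matrix.mul_assoc (em R q)ᵀ, hE, Matrix.one_mul]
  refine ⟨⟨⟨fun g => (em R q)ᵀ * ((φ g : (Matrix S S R)ˣ) : Matrix S S R) * em R q, ?_⟩, ?_⟩,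
    ?_, ?_⟩
  · change (em R q)ᵀ * ((φ 1 : (Matrix S S R)ˣ) : Matrix S S R) * em R q = 1
    rw [map_one, Units.val_one, Matrix.mul_one, hE]
  · intro g h
    change (em R q)ᵀ * ((φ (g * h) : (Matrix S S R)ˣ) : Matrix S S R) * em R q =
      (em R q)ᵀ * ((φ g : (Matrix S S R)ˣ) : Matrix S S R) * em R q *
        ((em R q)ᵀ * ((φ h : (Matrix S S R)ˣ) : Matrix S S R) * em R q)
    rw [map_mul, Units.val_mul, Matrix.mul_assoc, Matrix.mul_assoc, h4 h]
    simp only [Matrix.mul_assoc]
  · intro b
    change (em R q)ᵀ * ((φ (x b) : (Matrix S S R)ˣ) : Matrix S S R) * em R q = _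
    rw [hφ, Matrix.mul_assoc, show ((tvu C hC (q (ix b)) : (Matrix S S R)ˣ) : Matrix S S R) =
      tv C (q (ix b)) from rfl, h1, ← Matrix.mul_assoc, hE, Matrix.one_mul, yy_eq]
  · intro g hg
    change (em R q)ᵀ * ((φ g : (Matrix S S R)ˣ) : Matrix S S R) * em R q = _
    rw [hg, Units.val_one, Matrix.mul_one, hE]

theorem restr_faithful (hx : Subgroup.closure (Set.range x) = ⊤) (hC : ∀ s, C s s = 0)
    (φ : D →* (Matrix S S R)ˣ) (hφ : ∀ b, φ (x b) = tvu C hC (q (ix b)))
    (hq : Function.Injective q) (hl : (em R q)ᵀ * C * em R q = fm l) (f : R →+* ℝ) {m : ℕ}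
    (hm : 3 ≤ m) (hfl : f l = lam m) (hb : bp x true m = bp x false m)
    (δ : D →* Multiplicative ℤ) (hδ : ∀ b, δ (x b) = Multiplicative.ofAdd 1) (g : D)
    (h1 : φ g = 1) (h2 : δ g = 1) : g = 1 := by
  obtain ⟨ψ, hψ, hg⟩ := exists_restr hx hC φ hφ hq hl
  refine dih_faithful (((f.mapMatrix : Matrix (Fin 2) (Fin 2) R →+* _).toMonoidHom).comp ψ) hm hb
    ?_ δ hδ g (by rw [hx]; trivial) ?_ h2
  · intro b
    change f.mapMatrix (ψ (x b)) = _
    rw [hψ, yy_map, hfl, yy_real]
  · change f.mapMatrix (ψ g) = 1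
    rw [hg g h1, map_one]

end pair

section artin

variable {S : Type*}

/-- A pair of generators. -/
def pr {D : Type*} (s t : D) (b : Bool) : D := if b then s else t

/-- The relations of the Artin group with labels `M s t` (the label `0` stands for `∞`). -/
def rels (M : S → S → ℕ) : Set (FreeGroup S) :=
  {w | ∃ s t : S, s ≠ t ∧ w = bp (pr (FreeGroup.of s) (FreeGroup.of t)) true (M s t) *
    (bp (pr (FreeGroup.of s) (FreeGroup.of t)) false (M s t))⁻¹}

theorem pr_map {D E : Type*} (f : D → E) (s t : D) :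
    (fun b => f (pr s t b)) = pr (f s) (f t) := by
  funext b
  cases b <;> rfl

theorem bp_swap {D : Type*} [Monoid D] (s t : D) (b : Bool) (r : ℕ) :
    bp (pr s t) b r = bp (pr t s) (!b) r := by
  induction r generalizing b with
  | zero => rfl
  | succ r ih =>
    rw [bp_succ, bp_succ, ih]
    congr 1
    cases b <;> rfl

variable [Fintype S] [LinearOrder S] {R : Type*} [CommRing R]

/-- The form. -/
def frm (L : S → S → R) : Matrix S S R := Matrix.of fun s t =>
  if s < t then -L s t else if t < s then L t s else 0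

omit [Fintype S] in
theorem frm_diag (L : S → S → R) (s : S) : frm L s s = 0 := by
  simp [frm]

theorem frm_pair (L : S → S → R) {s t : S} (h : s < t) :
    (em R ![s, t])ᵀ * frm L * em R ![s, t] = fm (L s t) := by
  ext i j
  rw [em_C]
  fin_cases i <;> fin_cases j <;> simp [frm, fm, h, h.not_gt]

omit [Fintype S] [LinearOrder S] [CommRing R] in
theorem pr_ix (s t : S) (f : S → Matrix S S R) :
    (fun b => f (![s, t] (ix b))) = pr (f s) (f t) := by
  funext b
  cases b <;> rfl

theorem braid_frm (f : R →+* ℝ) (hf : Function.Injective f) (M : S → S → ℕ)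
    (hM : ∀ s t, s ≠ t → M s t = 0 ∨ 3 ≤ M s t) (hMs : ∀ s t, M s t = M t s) (L : S → S → R)
    (hL : ∀ s t, f (L s t) = lam (M s t)) (s t : S) (hst : s ≠ t) :
    bp (pr (tv (frm L) s) (tv (frm L) t)) true (M s t) =
      bp (pr (tv (frm L) s) (tv (frm L) t)) false (M s t) := by
  have key : ∀ s t : S, s < t →
      bp (pr (tv (frm L) s) (tv (frm L) t)) true (M s t) =
      bp (pr (tv (frm L) s) (tv (frm L) t)) false (M s t) := by
    intro s t h
    rcases hM s t h.ne with h0 | h3
    · rw [h0]
      rfl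
    · have := braid_tv (frm_pair L h) f hf h3 (hL s t)
      rwa [pr_ix] at this
  rcases lt_or_gt_of_ne hst with h | h
  · exact key s t h
  · rw [bp_swap, bp_swap (tv (frm L) s) _ false, hMs s t]
    exact (key t s h).symm

/-- The representation of the Artin group by transvections. -/
def rep (f : R →+* ℝ) (hf : Function.Injective f) (M : S → S → ℕ)
    (hM : ∀ s t, s ≠ t → M s t = 0 ∨ 3 ≤ M s t) (hMs : ∀ s t, M s t = M t s) (L : S → S → R)
    (hL : ∀ s t, f (L s t) = lam (M s t)) : PresentedGroup (rels M) →* (Matrix S S R)ˣ :=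
  PresentedGroup.toGroup (f := tvu (frm L) (frm_diag L)) (by
    rintro w ⟨s, t, hst, rfl⟩
    rw [map_mul, map_inv, mul_inv_eq_one]
    apply Units.ext
    have h : ∀ b, ((FreeGroup.lift (tvu (frm L) (frm_diag L))
        (bp (pr (FreeGroup.of s) (FreeGroup.of t)) b (M s t)) : (Matrix S S R)ˣ) : Matrix S S R) =
        bp (pr (tv (frm L) s) (tv (frm L) t)) b (M s t) := by
      intro b
      have h1 := map_bp (pr (FreeGroup.of s) (FreeGroup.of t))
        ((Units.coeHom (Matrix S S R)).comp (FreeGroup.lift (tvu (frm L) (frm_diag L)))) b (M s t)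
      rw [pr_map] at h1
      have h2 : ∀ s, ((Units.coeHom (Matrix S S R)).comp
          (FreeGroup.lift (tvu (frm L) (frm_diag L)))) (FreeGroup.of s) = tv (frm L) s := by
        intro s
        rw [MonoidHom.comp_apply, FreeGroup.lift_apply_of]
        rfl
      rw [h2, h2] at h1
      exact h1
    rw [h, h]
    exact braid_frm f hf M hM hMs L hL s t hst)

theorem rep_of (f : R →+* ℝ) (hf : Function.Injective f) (M : S → S → ℕ)
    (hM : ∀ s t, s ≠ t → M s t = 0 ∨ 3 ≤ M s t) (hMs : ∀ s t, M s t = M t s) (L : S → S → R)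
    (hL : ∀ s t, f (L s t) = lam (M s t)) (s : S) :
    rep f hf M hM hMs L hL (PresentedGroup.of s) = tvu (frm L) (frm_diag L) s :=
  PresentedGroup.toGroup.of _

omit [Fintype S] [LinearOrder S] in
/-- The degree. -/
def deg (M : S → S → ℕ) : PresentedGroup (rels M) →* Multiplicative ℤ :=
  PresentedGroup.toGroup (f := fun _ => Multiplicative.ofAdd 1) (by
    rintro w ⟨s, t, hst, rfl⟩
    rw [map_mul, map_inv, mul_inv_eq_one, map_bp, map_bp, pr_map]
    have : ∀ b r, bp (pr (FreeGroup.lift (fun _ : S => Multiplicative.ofAdd (1 : ℤ))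
        (FreeGroup.of s)) (FreeGroup.lift (fun _ => Multiplicative.ofAdd (1 : ℤ))
          (FreeGroup.of t))) b r = Multiplicative.ofAdd (r : ℤ) := by
      intro b r
      induction r generalizing b with
      | zero => rfl
      | succ r ih =>
        rw [bp_succ, ih]
        cases b <;> simp [pr, ← ofAdd_add, add_comm]
    rw [this, this])

omit [Fintype S] [LinearOrder S] in
theorem deg_of (M : S → S → ℕ) (s : S) :
    deg M (PresentedGroup.of s) = Multiplicative.ofAdd 1 :=
  PresentedGroup.toGroup.of _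

omit [Fintype S] [LinearOrder S] in
theorem braid_of (M : S → S → ℕ) {s t : S} (hst : s ≠ t) :
    bp (pr (PresentedGroup.of (rels := rels M) s) (PresentedGroup.of t)) true (M s t) =
      bp (pr (PresentedGroup.of (rels := rels M) s) (PresentedGroup.of t)) false (M s t) := by
  have h : ∀ b, PresentedGroup.mk (rels M)
      (bp (pr (FreeGroup.of s) (FreeGroup.of t)) b (M s t)) =
      bp (pr (PresentedGroup.of (rels := rels M) s) (PresentedGroup.of t)) b (M s t) := by
    intro b
    rw [map_bp, pr_map]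
    rfl
  rw [← h, ← h, ← mul_inv_eq_one, ← map_inv, ← map_mul]
  exact PresentedGroup.one_of_mem ⟨s, t, hst, rfl⟩

/-- The representation together with the degree is faithful on the dihedral parabolic subgroups. -/
theorem rep_faithful (f : R →+* ℝ) (hf : Function.Injective f) (M : S → S → ℕ)
    (hM : ∀ s t, s ≠ t → M s t = 0 ∨ 3 ≤ M s t) (hMs : ∀ s t, M s t = M t s) (L : S → S → R)
    (hL : ∀ s t, f (L s t) = lam (M s t)) {s t : S} (hst : s ≠ t) (h0 : M s t ≠ 0)
    (g : PresentedGroup (rels M))
    (hg : g ∈ Subgroup.closure {PresentedGroup.of s, PresentedGroup.of t})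
    (h1 : rep f hf M hM hMs L hL g = 1) (h2 : deg M g = 1) : g = 1 := by
  have key : ∀ s t : S, s < t → M s t ≠ 0 →
      g ∈ Subgroup.closure {PresentedGroup.of s, PresentedGroup.of t} → g = 1 := by
    intro s t h h0 hg
    set D := Subgroup.closure ({PresentedGroup.of s, PresentedGroup.of t} :
      Set (PresentedGroup (rels M))) with hD
    have hs : PresentedGroup.of s ∈ D := Subgroup.subset_closure (by simp)
    have ht : PresentedGroup.of t ∈ D := Subgroup.subset_closure (by simp)
    let x : Bool → D := pr ⟨_, hs⟩ ⟨_, ht⟩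
    have hxe : D.subtype '' Set.range x = {PresentedGroup.of s, PresentedGroup.of t} := by
      ext y
      constructor
      · rintro ⟨_, ⟨b, rfl⟩, rfl⟩
        cases b
        · exact Or.inr rfl
        · exact Or.inl rfl
      · rintro (rfl | rfl)
        · exact ⟨x true, ⟨true, rfl⟩, rfl⟩
        · exact ⟨x false, ⟨false, rfl⟩, rfl⟩
    have hx : Subgroup.closure (Set.range x) = ⊤ := by
      apply Subgroup.map_injective D.subtype_injective
      rw [MonoidHom.map_closure, hxe, ← hD, ← MonoidHom.range_eq_map, Subgroup.range_subtype]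
    have hb : bp x true (M s t) = bp x false (M s t) := by
      apply D.subtype_injective
      rw [map_bp, map_bp, pr_map]
      exact braid_of M h.ne
    have h3 := (hM s t h.ne).resolve_left h0
    have hq : Function.Injective (![s, t] : Fin 2 → S) := by
      intro i j hij
      fin_cases i <;> fin_cases j <;> simp_all [h.ne, h.ne']
    have := restr_faithful (x := x) hx (frm_diag L) ((rep f hf M hM hMs L hL).comp D.subtype)
      (q := ![s, t]) ?_ hq (frm_pair L h) f h3 (hL s t) hb ((deg M).comp D.subtype) ?_ ⟨g, hg⟩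
      h1 h2
    · exact congrArg Subtype.val this
    · intro b
      cases b <;> exact rep_of f hf M hM hMs L hL _
    · intro b
      cases b <;> exact deg_of M _
  rcases lt_or_gt_of_ne hst with h | h
  · exact key s t h h0 hg
  · rw [Set.pair_comm] at hg
    exact key t s h (by rwa [hMs]) hg

end artin

end Pool.Agent.Helper54.LA
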