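import Pool.Agent.Helper54.LA.Art

/-!
# There are no short relations between the powers of two generators
-/

set_option autoImplicit false

namespace Pool.Agent.Helper54.LA

open scoped Matrix MatrixGroups

open Pool.Agent.Helper29.BA Pool.Agent.Helper13.LT

section

/-- The powers of a unipotent element. -/
def unip {A : Type*} [Ring A] (N : A) (hN : N * N = 0) : Multiplicative ℤ →* Aˣ where
  toFun n := ⟨1 + n.toAdd • N, 1 - n.toAdd • N, by
    rw [mul_sub, mul_one, add_mul, one_mul, smul_mul_smul_comm, hN, smul_zero, add_zero]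
    abel, by
    rw [sub_mul, one_mul, mul_add, mul_one, smul_mul_smul_comm, hN, smul_zero, add_zero]
    abel⟩
  map_one' := by
    ext
    simp
  map_mul' a b := by
    ext
    rw [Units.val_mul]
    change 1 + (a.toAdd + b.toAdd) • N = (1 + a.toAdd • N) * (1 + b.toAdd • N)
    rw [mul_add, mul_one, add_mul, one_mul, smul_mul_smul_comm, hN, smul_zero, add_zero, add_smul]
    abel

theorem unip_zpow {A : Type*} [Ring A] (N : A) (hN : N * N = 0) (u : Aˣ) (hu : (u : A) = 1 + N)
    (n : ℤ) : ((u ^ n : Aˣ) : A) = 1 + n • N := by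
  have h1 : u = unip N hN (Multiplicative.ofAdd 1) := by
    ext
    rw [hu]
    change _ = 1 + (1 : ℤ) • N
    rw [one_smul]
  rw [h1, ← map_zpow, ← ofAdd_zsmul, smul_eq_mul, mul_one]
  rfl

variable {R : Type*} [CommRing R] {S : Type*} [Fintype S] [DecidableEq S] {C : Matrix S S R}

variable {q : Fin 2 → S} {l : R}

theorem tvu_zpow_em (hC : ∀ s, C s s = 0) (hl : (em R q)ᵀ * C * em R q = fm l) (k : Fin 2)
    (n : ℤ) : ((tvu C hC (q k) ^ n : (Matrix S S R)ˣ) : Matrix S S R) * em R q =
      em R q * (1 + n • (Matrix.single k k 1 * fm l)) := by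
  rw [unip_zpow _ (tv_sq hC (q k)) _ rfl, ← em_single, ← hl]
  simp only [Matrix.mul_add, Matrix.add_mul, Matrix.mul_one, Matrix.one_mul, Matrix.mul_assoc,
    Matrix.smul_mul, Matrix.mul_smul]

theorem em_cancel (hq : Function.Injective q) {A B : Matrix (Fin 2) (Fin 2) R}
    (h : em R q * A = em R q * B) : A = B := by
  have h1 : (em R q)ᵀ * (em R q * A) = (em R q)ᵀ * (em R q * B) := by rw [h]
  rwa [← Matrix.mul_assoc, ← Matrix.mul_assoc, em_em hq, Matrix.one_mul, Matrix.one_mul] at h1

end

variable {S : Type} (M : CoxeterMatrix S)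

theorem lam_ne {m : ℕ} (hm : m = 0 ∨ 3 ≤ m) : lam m ≠ 0 := by
  unfold lam
  rcases hm with rfl | hm
  · simp
  · have h9 : 0 < Real.cos (Real.pi / m) := by
      refine Real.cos_pos_of_mem_Ioo ⟨?_, ?_⟩
      · have : 0 ≤ Real.pi / m := by positivity
        linarith [Real.pi_pos]
      · have : (3 : ℝ) ≤ m := by exact_mod_cast hm
        rw [div_lt_div_iff₀ (by linarith) (by norm_num)]
        nlinarith [Real.pi_pos]
    positivity

/-- The matrices of the powers of the two generators on the plane. -/
def pw (l : ℝ) (k : Fin 2) (n : ℤ) : Matrix (Fin 2) (Fin 2) ℝ :=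
  1 + n • (Matrix.single k k 1 * fm l)

theorem pw_zero (l : ℝ) (n : ℤ) : pw l 0 n = !![1, -(n * l); 0, 1] := by
  unfold pw fm
  ext i j
  rw [Matrix.add_apply, Matrix.smul_apply, zsmul_eq_mul]
  fin_cases i <;> fin_cases j <;> simp [Matrix.mul_apply, Matrix.single]

theorem pw_one (l : ℝ) (n : ℤ) : pw l 1 n = !![1, 0; n * l, 1] := by
  unfold pw fm
  ext i j
  rw [Matrix.add_apply, Matrix.smul_apply, zsmul_eq_mul]
  fin_cases i <;> fin_cases j <;> simp [Matrix.mul_apply, Matrix.single]

/-- Words in two generators act on a plane. -/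
theorem exists_plane [Finite S] (hM : IsLarge M) {s t : S} (hst : s ≠ t) :
    ∃ (l : ℝ) (k k' : Fin 2), l ≠ 0 ∧ k ≠ k' ∧ ∀ w w' : List (Bool × ℤ),
      (w.map fun p => (PresentedGroup.of (rels := artinRels M) (if p.1 then s else t)) ^ p.2).prod =
      (w'.map fun p => (PresentedGroup.of (rels := artinRels M) (if p.1 then s else t)) ^ p.2).prod →
      (w.map fun p => pw l (if p.1 then k else k') p.2).prod =
      (w'.map fun p => pw l (if p.1 then k else k') p.2).prod := by
  classical
  have : Fintype S := Fintype.ofFinite S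
  let _ : LinearOrder S := LinearOrder.lift' (Fintype.equivFin S) (Fintype.equivFin S).injective
  have hL : ∀ s t, RingHom.id ℝ (lam (M s t)) = lam (M s t) := fun _ _ => rfl
  have hM' : ∀ s t, s ≠ t → M s t = 0 ∨ 3 ≤ M s t := by
    intro s t hst
    have e1 := M.off_diagonal s t hst
    have e2 := hM s t
    by_cases h : M s t = 0
    · exact Or.inl h
    · right
      change M s t ≠ 1 at e1
      omega
  let φ := (rep (RingHom.id ℝ) Function.injective_id (fun s t => M s t) hM'
    (fun s t => M.symmetric s t) (fun s t => lam (M s t)) hL).comp (toR M)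
  have hφ : ∀ s, φ (PresentedGroup.of s) = tvu (frm fun s t => lam (M s t)) (frm_diag _) s := by
    intro s
    change rep (RingHom.id ℝ) Function.injective_id (fun s t => M s t) hM'
      (fun s t => M.symmetric s t) (fun s t => lam (M s t)) hL (toR M (PresentedGroup.of s)) = _
    rw [toR_of, rep_of]
  -- the general statement for an ordered pair
  have key : ∀ (s t : S) (h : s < t) (c : Bool → Fin 2) (w : List (Bool × ℤ)),
      ((φ (w.map fun p => (PresentedGroup.of (rels := artinRels M)
        (![s, t] (c p.1))) ^ p.2).prod : (Matrix S S ℝ)ˣ) : Matrix S S ℝ) * em ℝ ![s, t] =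
      em ℝ ![s, t] * (w.map fun p => pw (lam (M s t)) (c p.1) p.2).prod := by
    intro s t h c w
    induction w with
    | nil => simp
    | cons p w ih =>
      rw [List.map_cons, List.prod_cons, List.map_cons, List.prod_cons, map_mul, Units.val_mul,
        Matrix.mul_assoc, ih, ← Matrix.mul_assoc, map_zpow, hφ,
        tvu_zpow_em (frm_diag _) (frm_pair (fun s t => lam (M s t)) h), Matrix.mul_assoc]
      rfl
  have hinj : ∀ s t : S, s < t → Function.Injective (![s, t] : Fin 2 → S) := by
    intro s t h i j hij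
    fin_cases i <;> fin_cases j <;> simp_all [h.ne, h.ne']
  rcases lt_or_gt_of_ne hst with h | h
  · refine ⟨lam (M s t), 0, 1, lam_ne (hM' s t hst), by decide, fun w w' hw => ?_⟩
    have e : ∀ p : Bool × ℤ, (![s, t] (if p.1 then 0 else 1) : S) = if p.1 then s else t := by
      rintro ⟨b, n⟩
      cases b <;> rfl
    have h1 := key s t h (fun b => if b then 0 else 1) w
    have h2 := key s t h (fun b => if b then 0 else 1) w'
    simp only [e] at h1 h2
    rw [hw, h2] at h1
    exact (em_cancel (hinj s t h) h1).symm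
  · refine ⟨lam (M t s), 1, 0, lam_ne (hM' t s hst.symm), by decide, fun w w' hw => ?_⟩
    have e : ∀ p : Bool × ℤ, (![t, s] (if p.1 then 1 else 0) : S) = if p.1 then s else t := by
      rintro ⟨b, n⟩
      cases b <;> rfl
    have h1 := key t s h (fun b => if b then 1 else 0) w
    have h2 := key t s h (fun b => if b then 1 else 0) w'
    simp only [e] at h1 h2
    rw [hw, h2] at h1
    exact (em_cancel (hinj t s h) h1).symm

/-- Powers of different generators are different. -/
theorem zpow_eq [Finite S] (hM : IsLarge M) {s t : S} (hst : s ≠ t) {a b : ℤ}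
    (h : (PresentedGroup.of (rels := artinRels M) s) ^ a = (PresentedGroup.of t) ^ b) :
    a = 0 ∧ b = 0 := by
  obtain ⟨l, k, k', hl, hk, hw⟩ := exists_plane M hM hst
  have h1 := hw [(true, a)] [(false, b)] (by simpa using h)
  simp only [List.map_cons, List.map_nil, List.prod_cons, List.prod_nil, mul_one, if_true,
    Bool.false_eq_true, if_false] at h1
  have h2 : ∀ a b : ℤ, pw l 0 a = pw l 1 b → a = 0 ∧ b = 0 := by
    intro a b h
    rw [pw_zero, pw_one] at h
    have e1 := congrFun (congrFun h 0) 1
    have e2 := congrFun (congrFun h 1) 0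
    simp at e1 e2
    exact ⟨e1.resolve_right hl, e2.resolve_right hl⟩
  fin_cases k <;> fin_cases k'
  · exact absurd rfl hk
  · exact h2 a b h1
  · exact (h2 b a h1.symm).symm
  · exact absurd rfl hk

/-- There are no relations with four syllables. -/
theorem four [Finite S] (hM : IsLarge M) {s t : S} (hst : s ≠ t) {a b c d : ℤ}
    (h : (PresentedGroup.of (rels := artinRels M) s) ^ a * (PresentedGroup.of t) ^ b *
      (PresentedGroup.of s) ^ c * (PresentedGroup.of t) ^ d = 1) : a = 0 ∨ b = 0 := by
  obtain ⟨l, k, k', hl, hk, hw⟩ := exists_plane M hM hst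
  have h0 : (PresentedGroup.of (rels := artinRels M) s) ^ a * (PresentedGroup.of t) ^ b =
      (PresentedGroup.of t) ^ (-d) * (PresentedGroup.of s) ^ (-c) := by
    rw [zpow_neg, zpow_neg, ← mul_inv_rev, eq_inv_iff_mul_eq_one, ← mul_assoc]
    exact h
  have h1 := hw [(true, a), (false, b)] [(false, -d), (true, -c)] (by simpa using h0)
  simp only [List.map_cons, List.map_nil, List.prod_cons, List.prod_nil, mul_one, if_true,
    Bool.false_eq_true, if_false] at h1
  have h2 : ∀ a b c d : ℤ, pw l 0 a * pw l 1 b = pw l 1 d * pw l 0 c → a = 0 ∨ b = 0 := by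
    intro a b c d h
    rw [pw_zero, pw_one, pw_zero, pw_one] at h
    have e1 := congrFun (congrFun h 0) 0
    simp [Matrix.mul_apply, Fin.sum_univ_two] at e1
    rcases e1 with (e1 | e1) | (e1 | e1)
    · exact Or.inl e1
    · exact absurd e1 hl
    · exact Or.inr e1
    · exact absurd e1 hl
  have h3 : ∀ a b c d : ℤ, pw l 1 a * pw l 0 b = pw l 0 d * pw l 1 c → a = 0 ∨ b = 0 := by
    intro a b c d h
    rw [pw_zero, pw_one, pw_zero, pw_one] at h
    have e1 := congrFun (congrFun h 1) 1
    simp [Matrix.mul_apply, Fin.sum_univ_two] at e1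
    rcases e1 with (e1 | e1) | (e1 | e1)
    · exact Or.inl e1
    · exact absurd e1 hl
    · exact Or.inr e1
    · exact absurd e1 hl
  fin_cases k <;> fin_cases k'
  · exact absurd rfl hk
  · exact h2 _ _ _ _ h1
  · exact h3 _ _ _ _ h1
  · exact absurd rfl hk

end Pool.Agent.Helper54.LA
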